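import Pool.Agent.Y516.OJ.Final

set_option autoImplicit false

/-!
# Set intersection queries: quadratic space, if only one of the cells read depends on all sets

A family of sets is given as two halves `F`, `G` of `k` sets each. The memory has `s` cells of `w`
bits, which may be *arbitrary* functions of the whole family, and in addition an unlimited memory
with arbitrary functions of the first half alone and of the second half alone. A query names a set
`i` of the first half and a set `j` of the second half and asks whether they intersect. One of the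
`s` joint cells is read; its address may be an *arbitrary* function of `i`, `j`, the first half and
public random bits. Then the query is answered by an arbitrary communication protocol of at most `b`
bits between the two halves; for instance, `T` adaptive probes of cells of the one-sided memory are
such a protocol with `b = w T`. If the error probability is at most `1 / (2 * 10 ^ 6)`, then

  `N ^ 2 ≤ 10 ^ 20 * (b + l) ^ 2 * w ^ 3 * s`, where `l = ⌈2 log₂ N⌉`,

and `l = 0` suffices if the address is a function of the query and the random bits only. In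
`MP_f326ae_lc.TwoDimensionalTable` (starting hand-in) the joint cells form a table, and the row and
the column of the cell depend on one set and one half each; here the joint memory has no structure
and the address depends on the pair of sets and on all sets of the first half.
-/

namespace Pool.Agent.Results.MP_f326ae_lc.AdaptiveJointProbe

open Pool.Agent.Y516.OJ

/-- For all `N`, `w`, `b`, `l` there are `k ≤ max 1 N` and `u` such that every random data structure
with `s` joint cells of `w` bits, one joint probe (the address is a function of the query `(i, j)`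
and of the first half of the family) and protocols of `b` bits, which decides emptiness of the
intersections for families of `2 k` subsets of a universe with `u` elements, of total size at most
`N`, satisfies `N ^ 2 ≤ 10 ^ 20 * (b + l) ^ 2 * w ^ 3 * s`, if `N ^ 2 ≤ 2 ^ l` or if the addresses
do not depend on the family. -/
theorem result (N w b l : ℕ) (hw : 1 ≤ w) (hb : 1 ≤ b) :
    ∃ k u : ℕ, k ≤ max 1 N ∧ u ≤ 2 * 10 ^ 14 * (b + l) ^ 2 * w ^ 2 ∧
      ∀ (s : ℕ) (Ω : Type) [Fintype Ω] (p : Ω → ℝ) (D : Ω → PairADS k u w s),
        (N ^ 2 ≤ 2 ^ l ∨ ∀ ω i j F F', (D ω).addr i j F = (D ω).addr i j F') →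
        SolvesPairA b N p D → N ^ 2 ≤ 10 ^ 20 * (b + l) ^ 2 * w ^ 3 * s := by
  obtain ⟨m, hm⟩ : ∃ m, m = 4000 * w := ⟨_, rfl⟩
  obtain ⟨M, hM⟩ : ∃ M, M = 10000 * (b + l) * m := ⟨_, rfl⟩
  have hM1 := M_pos w (b + l) m M hw (by omega) hm hM
  obtain ⟨k, hk0⟩ : ∃ k, k = 2 * N / M := ⟨_, rfl⟩
  obtain ⟨hkM, hk2, hkn⟩ := k_bounds hM1 hk0
  have hs : ∀ (k' u s : ℕ) (_ : 1 ≤ k') (Ω : Type) [Fintype Ω] (p : Ω → ℝ)
      (D : Ω → PairADS k' u w s), ∑ ω, p ω = 1 → 1 ≤ s := by
    intro k' u s hk' Ω _ p D hp1
    have hne : Nonempty Ω := by
      by_contra hno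
      rw [not_nonempty_iff] at hno
      rw [Finset.univ_eq_empty, Finset.sum_empty] at hp1
      exact zero_ne_one hp1
    obtain ⟨ω⟩ := hne
    have h1 := ((D ω).addr ⟨0, hk'⟩ ⟨0, hk'⟩ (fun _ => ∅)).2
    omega
  rcases Nat.eq_zero_or_pos k with h0 | h0
  · refine ⟨1, 0, le_max_left _ _, Nat.zero_le _, ?_⟩
    intro s Ω _ p D _ h
    exact numer4 w (b + l) m M k s N hw hm hM hk2 (by rw [h0]; exact Nat.zero_le _)
      (hs 1 0 s le_rfl Ω p D h.2.1)
  · refine ⟨k, M ^ 2 / 8, hkn.trans (le_max_right _ _), (M_sq w (b + l) m M hm hM).le, ?_⟩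
    intro s Ω _ p D hl h
    have hs1 := hs k _ s h0 Ω p D h.2.1
    obtain ⟨hp, hp1, hd, hgood⟩ := h
    refine numer4 w (b + l) m M k s N hw hm hM hk2 ?_ hs1
    refine master3 coreThm adThm2 w b l m M k s N hw hb hm hM hkM Ω p hp hp1
      (fun ω X Y c => (D ω).cell (sets X) (sets Y) c)
      (fun ω d X => (D ω).addr d.1 d.2 (sets X))
      (fun ω d v => ((D ω).query d.1 d.2 v).comap sets sets)
      ?_ (fun ω d v => by rw [Prot.depth_comap]; exact hd _ _ _ _) ?_
    · rcases hl with hl | hl
      · exact Or.inl ((Nat.pow_le_pow_left hkn 2).trans hl)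
      · exact Or.inr fun ω d X X' => hl ω _ _ _ _
    intro X Y hXY d
    refine (hgood (sets X) (sets Y) (by rw [sum_sets, sum_sets]; exact hXY) d.1 d.2).trans
      (le_of_eq ?_)
    refine Finset.sum_congr rfl fun ω _ => ?_
    rw [sets_iff X Y d.1 d.2, Prot.run_comap]
    rfl

end Pool.Agent.Results.MP_f326ae_lc.AdaptiveJointProbe
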