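import Pool.Agent.Q329.HC.Bits

/-!
# SetIntersection: the hard families are dense, and the bound `N ^ 2 / T` can be beaten by a logarithm

Data structures for SetIntersection in the cell-probe model (`HasStructure m U N s w a b`): a family of
`m` subsets of `{0, …, U - 1}` of total size at most `N` is stored in `s` cells of `w` bits, in an arbitrary
way; the query `(i, j)` is answered by an adaptive algorithm which depends on `i` and `j` only, outputs the
intersection of the sets number `i` and `j` and probes at most `a + b op` cells, `op` being the size of
the intersection. The preprocessing and all computation with the contents of the probed cells are free.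

(1) Let `T` be the query time and `log N + 2 ≤ K ≤ T`. A structure for the dense families, with
`K N / T` sets in a universe of `T K` elements (and total size at most `N`), gives a structure for all
families of total size `N`: only `O (N + (K N / T) ^ 2 + N ^ 2 / (T K) + T K)` cells and `T + 8 + op` probes
have to be added. So, up to powers of the logarithm and for `T` not too small, Question 1 is equivalent
to its restriction to families of `N / T` sets over a universe of `T` elements.

(2) For `w ^ 3 ≤ T ≤ N / w ^ 2` and `N ^ 2 < 2 ^ w` there is a structure with at most `12 N ^ 2 / (T w)` cells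
of `w` bits and at most `3 T + 8 + op` probes. So the space `O (N ^ 2 / T)` of the known structure can be
improved by a logarithmic factor, and the lower bound of Question 1 fails without its logarithmic factors.

The proof: a set with fewer than `T / K` elements is read completely, and its elements are looked up by
binary search in the other set. There are at most `K N / T` larger sets. An element which is in more than
`N / (T K)` of them is called high; there are at most `T K` high elements, and the traces of the larger
sets on them are a dense family. For the other elements the common elements of every pair are stored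
explicitly; these are at most `N ^ 2 / (T K)` in total. In (2) `K = w`, and the dense family is stored in
bit vectors with `T` words per set.
-/

set_option autoImplicit false

namespace Pool.Agent.Results.MP_f326ae_lc.DenseCore

open Pool.Agent.Q329.HC

/-- (1) Let `log₂ N + 2 ≤ K ≤ T`, `N ^ 2 < 2 ^ w`, `U ≤ 2 ^ w` and `m ≤ N`. If SetIntersection for families of
`⌊K N / T⌋` subsets of `{0, …, T K - 1}` of total size at most `N` has a cell-probe structure with `s` cells of
`w` bits and at most `a + b op` probes, then for families of `m` subsets of `{0, …, U - 1}` of total size at
most `N` it has one with `s + 4 N + 2 ⌊K N / T⌋ ^ 2 + N ⌊N / (T K)⌋ + T K + 3` cells of `w` bits and at most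
`a + T + 8 + (b + 1) op` probes.

(2) Let `w ^ 3 ≤ T`, `T w ^ 2 ≤ N`, `N ^ 2 < 2 ^ w`, `U ≤ 2 ^ w`, `m ≤ N` and `N ≥ 2`. Then for families of `m`
subsets of `{0, …, U - 1}` of total size at most `N` there is a structure with `s` cells of `w` bits,
`s T w ≤ 12 N ^ 2`, and at most `3 T + 8 + op` probes. -/
theorem result :
    (∀ m U N s w a b T K : ℕ, 0 < T → Nat.log 2 N + 2 ≤ K → K ≤ T → N ^ 2 < 2 ^ w → U ≤ 2 ^ w →
      m ≤ N → HasStructure (K * N / T) (T * K) N s w a b →
      HasStructure m U N (s + 4 * N + 2 * (K * N / T) ^ 2 + N * (N / (T * K)) + T * K + 3) w
        (a + T + 8) (b + 1)) ∧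
    ∀ m U N w T : ℕ, w ^ 3 ≤ T → T * w ^ 2 ≤ N → N ^ 2 < 2 ^ w → U ≤ 2 ^ w → m ≤ N → 2 ≤ N →
      ∃ s, s * (T * w) ≤ 12 * N ^ 2 ∧ HasStructure m U N s w (3 * T + 8) 1 :=
  ⟨fun _ _ _ _ _ _ _ _ _ hT hK hKT hw hUw hm h => reduction hT hK hKT hw hUw hm h,
    fun _ _ _ _ _ hT hTN hw hUw hm hN => upper hT hTN hw hUw hm hN⟩

end Pool.Agent.Results.MP_f326ae_lc.DenseCore
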