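import Pool.Agent.Q84.SI.Transfer

/-!
# SetIntersection: one query time decides all smaller ones

In the cell probe model of the starting file `CellProbeTradeoff` we show that the space-time tradeoff
`S = Ω~(N ^ 2 / T)` for the single query time `T = N ^ (1 - δ)` implies the tradeoff for all query
times `1 ≤ T ≤ N ^ (1 - δ)`, uniformly: a lower bound for long query times is the strongest one. The
same is true for the tradeoff up to factors `N ^ ε`. For example, space `Ω~(N ^ (3 / 2))` for the query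
time `√N` would imply space `Ω~(N ^ 2)` for constant query time, and the question is a question on the
query times `T ≥ N ^ (1 - δ)` only, for every `δ > 0`.

Proof. Let a data structure for size `n` be given. A family of total size `N = B ⌊n / 2⌋` is
decomposed: at most `B` elements are in more than `n / 2` sets, and the other elements are divided
into `B + 1` blocks such that the traces of the family on the blocks have total size at most `n`. Every
set has a list of at most `2 B + 1` entries, its frequent elements and pointers to its traces in the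
families of the blocks; these lists have total length at most `N`. A query reads two lists and asks
the data structures of the common blocks. This has space `O(B S + N)` and query time `O(B T + op)`,
so `S T / N ^ 2` and `T / N` are preserved up to constants and an error term, and `B` can be chosen
such that `B T` is of the order of `N ^ (1 - δ)` and `N ≤ n ^ (1 / δ)`.
-/

set_option autoImplicit false

namespace Pool.Agent.Results.MP_f326ae_lc.OneQueryTime

open Pool.Agent.W964.Si Pool.Agent.Q84.SI Filter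

/-- For the query time `T = T (N)` the space is `Ω~(N ^ 2 / T)`: for all large `N` every data
structure for families of total size `N` with words of `b log N` bits which answers all queries
correctly with at most `C (T + op)` probes has at least `N ^ 2 / (T (log N) ^ c)` cells, where `c`
depends only on `b` and `C`. -/
def LowerBound (T : ℕ → ℝ) : Prop :=
  ∀ (b : ℕ) (C : ℝ), ∃ c N₀ : ℕ, ∀ N : ℕ, N₀ ≤ N → ∀ S W : ℕ, W ≤ N ^ b →
    ∀ D : DataStructure N S W, D.Correct → D.Fast C (T N) →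
      (N : ℝ) ^ 2 ≤ S * T N * Real.log N ^ c

/-- The same for all `T` with `1 ≤ T ≤ N ^ (1 - δ)`, uniformly. -/
def UniformLowerBound (δ : ℝ) : Prop :=
  ∀ (b : ℕ) (C : ℝ), ∃ c N₀ : ℕ, ∀ N : ℕ, N₀ ≤ N → ∀ T : ℝ, 1 ≤ T → T ≤ (N : ℝ) ^ (1 - δ) →
    ∀ S W : ℕ, W ≤ N ^ b → ∀ D : DataStructure N S W, D.Correct → D.Fast C T →
      (N : ℝ) ^ 2 ≤ S * T * Real.log N ^ c

/-- For the query time `T = T (N)` the space is `N ^ (2 - o(1)) / T`. -/
def WeakLowerBound (T : ℕ → ℝ) : Prop :=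
  ∀ (b : ℕ) (C ε : ℝ), 0 < ε → ∃ N₀ : ℕ, ∀ N : ℕ, N₀ ≤ N → ∀ S W : ℕ, W ≤ N ^ b →
    ∀ D : DataStructure N S W, D.Correct → D.Fast C (T N) → (N : ℝ) ^ (2 - ε) ≤ S * T N

/-- The same for all `T` with `1 ≤ T ≤ N ^ (1 - δ)`, uniformly. -/
def UniformWeakLowerBound (δ : ℝ) : Prop :=
  ∀ (b : ℕ) (C ε : ℝ), 0 < ε → ∃ N₀ : ℕ, ∀ N : ℕ, N₀ ≤ N → ∀ T : ℝ, 1 ≤ T →
    T ≤ (N : ℝ) ^ (1 - δ) → ∀ S W : ℕ, W ≤ N ^ b →
      ∀ D : DataStructure N S W, D.Correct → D.Fast C T → (N : ℝ) ^ (2 - ε) ≤ S * T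

theorem uniform_of {δ : ℝ} (h0 : 0 < δ) (h1 : δ < 1)
    (h : LowerBound (fun N => (N : ℝ) ^ (1 - δ))) : UniformLowerBound δ := by
  intro b C
  obtain ⟨c, N₀, hN₀⟩ := h (2 * b + 4) (60 + 12 * max C 0)
  have hlim : ∀ᶠ N : ℕ in atTop, 24 * Real.log N ^ c ≤ (N : ℝ) ^ δ := by
    have h2 := (isLittleO_log_rpow_rpow_atTop (c : ℝ) h0).def (show (0 : ℝ) < 1 / 24 by norm_num)
    have h3 := tendsto_natCast_atTop_atTop (R := ℝ) |>.eventually h2
    filter_upwards [h3, eventually_ge_atTop 1] with N h4 h5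
    have h6 : 0 ≤ Real.log N := Real.log_natCast_nonneg N
    rw [Real.rpow_natCast, Real.norm_of_nonneg (pow_nonneg h6 c),
      Real.norm_of_nonneg (Real.rpow_nonneg (Nat.cast_nonneg N) δ)] at h4
    linarith
  obtain ⟨N₁, hN₁⟩ := hlim.exists_forall_of_atTop
  have hlog : ∀ᶠ n : ℕ in atTop, 36 * (1 / δ) ^ c ≤ Real.log n :=
    (Real.tendsto_log_atTop.comp tendsto_natCast_atTop_atTop).eventually_ge_atTop _
  obtain ⟨n₂, hn₂⟩ := hlog.exists_forall_of_atTop
  refine ⟨c + 1, max (max 54 n₂) (3 * max N₀ N₁), ?_⟩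
  intro n hn T hT hTn S W hW D hD hf
  have hn54 : 54 ≤ n := (le_max_left _ _).trans ((le_max_left _ _).trans hn)
  have hnn₂ : n₂ ≤ n := (le_max_right _ _).trans ((le_max_left _ _).trans hn)
  have hn3 : 3 * max N₀ N₁ ≤ n := (le_max_right _ _).trans hn
  obtain ⟨N, hNn, hNp, htr⟩ := transfer h0 h1 b C n T hn54 hT hTn
  have hNm : max N₀ N₁ ≤ N := by omega
  have hNN₀ : N₀ ≤ N := (le_max_left _ _).trans hNm
  have hNN₁ : N₁ ≤ N := (le_max_right _ _).trans hNm
  have hlN : 0 ≤ Real.log N := Real.log_natCast_nonneg N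
  have key := htr (Real.log N ^ c) (pow_nonneg hlN c) (hN₁ N hNN₁)
    (fun S W hW D hD hf => hN₀ N hNN₀ S W hW D hD hf) S W hW D hD hf
  have hn0 : (0 : ℝ) < n := by exact_mod_cast (by omega : 0 < n)
  have hN0 : (0 : ℝ) < N := by exact_mod_cast (by omega : 0 < N)
  have hlog1 : Real.log N ≤ 1 / δ * Real.log n := by
    have := Real.log_le_log hN0 hNp
    rwa [Real.log_rpow hn0] at this
  have hln : 0 ≤ Real.log n := Real.log_natCast_nonneg n
  have h2 : 36 * Real.log N ^ c ≤ Real.log n ^ (c + 1) := by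
    calc 36 * Real.log N ^ c ≤ 36 * (1 / δ * Real.log n) ^ c := by gcongr
      _ = (36 * (1 / δ) ^ c) * Real.log n ^ c := by rw [mul_pow]; ring
      _ ≤ Real.log n * Real.log n ^ c := by
        apply mul_le_mul_of_nonneg_right (hn₂ n hnn₂) (pow_nonneg hln c)
      _ = Real.log n ^ (c + 1) := by rw [pow_succ]; ring
  refine key.trans ?_
  apply mul_le_mul_of_nonneg_left h2
  have : (0 : ℝ) ≤ T := by linarith
  positivity

theorem weak_uniform_of {δ : ℝ} (h0 : 0 < δ) (h1 : δ < 1)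
    (h : WeakLowerBound (fun N => (N : ℝ) ^ (1 - δ))) : UniformWeakLowerBound δ := by
  intro b C ε hε
  set η : ℝ := min (ε * δ / 2) (δ / 2) with hη
  have hη0 : 0 < η := lt_min (by positivity) (by positivity)
  have hη1 : η ≤ ε * δ / 2 := min_le_left _ _
  have hη2 : η ≤ δ / 2 := min_le_right _ _
  obtain ⟨N₀, hN₀⟩ := h (2 * b + 4) (60 + 12 * max C 0) η hη0
  have hlim : ∀ᶠ N : ℕ in atTop, (24 : ℝ) ≤ (N : ℝ) ^ (δ / 2) :=
    ((tendsto_rpow_atTop (by positivity : 0 < δ / 2)).comp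
      tendsto_natCast_atTop_atTop).eventually_ge_atTop _
  obtain ⟨N₁, hN₁⟩ := hlim.exists_forall_of_atTop
  have hlim2 : ∀ᶠ n : ℕ in atTop, (36 : ℝ) ≤ (n : ℝ) ^ (ε / 2) :=
    ((tendsto_rpow_atTop (by positivity : 0 < ε / 2)).comp
      tendsto_natCast_atTop_atTop).eventually_ge_atTop _
  obtain ⟨n₂, hn₂⟩ := hlim2.exists_forall_of_atTop
  refine ⟨max (max 54 n₂) (3 * max N₀ N₁), ?_⟩
  intro n hn T hT hTn S W hW D hD hf
  have hn54 : 54 ≤ n := (le_max_left _ _).trans ((le_max_left _ _).trans hn)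
  have hnn₂ : n₂ ≤ n := (le_max_right _ _).trans ((le_max_left _ _).trans hn)
  have hn3 : 3 * max N₀ N₁ ≤ n := (le_max_right _ _).trans hn
  obtain ⟨N, hNn, hNp, htr⟩ := transfer h0 h1 b C n T hn54 hT hTn
  have hNm : max N₀ N₁ ≤ N := by omega
  have hNN₀ : N₀ ≤ N := (le_max_left _ _).trans hNm
  have hNN₁ : N₁ ≤ N := (le_max_right _ _).trans hNm
  have hn1 : (1 : ℝ) ≤ n := by exact_mod_cast (by omega : 1 ≤ n)
  have hn0 : (0 : ℝ) < n := by linarith
  have hN1 : (1 : ℝ) ≤ N := by exact_mod_cast (by omega : 1 ≤ N)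
  have hN0 : (0 : ℝ) < N := by linarith
  have key := htr ((N : ℝ) ^ η) (by positivity) (by
    calc 24 * (N : ℝ) ^ η ≤ (N : ℝ) ^ (δ / 2) * (N : ℝ) ^ (δ / 2) := by
          apply mul_le_mul (hN₁ N hNN₁) _ (by positivity) (by positivity)
          exact Real.rpow_le_rpow_of_exponent_le hN1 hη2
      _ = (N : ℝ) ^ δ := by rw [← Real.rpow_add hN0]; congr 1; ring)
    (fun S W hW D hD hf => by
      have h2 := hN₀ N hNN₀ S W hW D hD hf
      have h3 : (N : ℝ) ^ (2 - η) * (N : ℝ) ^ η = (N : ℝ) ^ 2 := by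
        rw [← Real.rpow_add hN0, ← Real.rpow_natCast]; congr 1; push_cast; ring
      rw [← h3]
      exact mul_le_mul_of_nonneg_right h2 (by positivity)) S W hW D hD hf
  have h2 : 36 * (N : ℝ) ^ η ≤ (n : ℝ) ^ ε := by
    calc 36 * (N : ℝ) ^ η ≤ (n : ℝ) ^ (ε / 2) * ((n : ℝ) ^ (1 / δ)) ^ η := by
          apply mul_le_mul (hn₂ n hnn₂) _ (by positivity) (by positivity)
          exact Real.rpow_le_rpow hN0.le hNp hη0.le
      _ = (n : ℝ) ^ (ε / 2) * (n : ℝ) ^ (1 / δ * η) := by rw [← Real.rpow_mul hn0.le]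
      _ ≤ (n : ℝ) ^ (ε / 2) * (n : ℝ) ^ (ε / 2) := by
        apply mul_le_mul_of_nonneg_left _ (by positivity)
        apply Real.rpow_le_rpow_of_exponent_le hn1
        calc 1 / δ * η ≤ 1 / δ * (ε * δ / 2) := by gcongr
          _ = ε / 2 := by field_simp
      _ = (n : ℝ) ^ ε := by rw [← Real.rpow_add hn0]; congr 1; ring
  have hST : (0 : ℝ) ≤ S * T := by
    have : (0 : ℝ) ≤ T := by linarith
    positivity
  have h4 : (n : ℝ) ^ (2 - ε) * (n : ℝ) ^ ε ≤ S * T * (n : ℝ) ^ ε := by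
    have h5 : (n : ℝ) ^ (2 - ε) * (n : ℝ) ^ ε = (n : ℝ) ^ 2 := by
      rw [← Real.rpow_add hn0, ← Real.rpow_natCast]; congr 1; push_cast; ring
    rw [h5]
    exact key.trans (mul_le_mul_of_nonneg_left h2 hST)
  exact le_of_mul_le_mul_right h4 (by positivity)

/-- **One query time decides all smaller ones.** Let `0 < δ < 1`. The tradeoff `S = Ω~(N ^ 2 / T)` for
the single query time `T = N ^ (1 - δ)` is equivalent to the tradeoff for all query times
`1 ≤ T ≤ N ^ (1 - δ)`, for every function `T (N)` or uniformly; and so is the tradeoff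
`S = N ^ (2 - o(1)) / T`. -/
theorem result (δ : ℝ) (h0 : 0 < δ) (h1 : δ < 1) :
    [LowerBound (fun N => (N : ℝ) ^ (1 - δ)),
      UniformLowerBound δ,
      ∀ T : ℕ → ℝ, (∀ N, 1 ≤ N → 1 ≤ T N ∧ T N ≤ (N : ℝ) ^ (1 - δ)) → LowerBound T].TFAE ∧
    [WeakLowerBound (fun N => (N : ℝ) ^ (1 - δ)),
      UniformWeakLowerBound δ,
      ∀ T : ℕ → ℝ, (∀ N, 1 ≤ N → 1 ≤ T N ∧ T N ≤ (N : ℝ) ^ (1 - δ)) →
        WeakLowerBound T].TFAE := by
  have hrange : ∀ N : ℕ, 1 ≤ N → 1 ≤ (N : ℝ) ^ (1 - δ) ∧ (N : ℝ) ^ (1 - δ) ≤ (N : ℝ) ^ (1 - δ) :=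
    fun N hN => ⟨Real.one_le_rpow (by exact_mod_cast hN) (by linarith), le_rfl⟩
  constructor
  · tfae_have 1 → 2 := uniform_of h0 h1
    tfae_have 2 → 3 := by
      intro h T hT b C
      obtain ⟨c, N₀, hN₀⟩ := h b C
      refine ⟨c, max N₀ 1, fun N hN S W hW D hD hf => ?_⟩
      obtain ⟨hT1, hT2⟩ := hT N ((le_max_right _ _).trans hN)
      exact hN₀ N ((le_max_left _ _).trans hN) (T N) hT1 hT2 S W hW D hD hf
    tfae_have 3 → 1 := fun h => h _ hrange
    tfae_finish
  · tfae_have 1 → 2 := weak_uniform_of h0 h1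
    tfae_have 2 → 3 := by
      intro h T hT b C ε hε
      obtain ⟨N₀, hN₀⟩ := h b C ε hε
      refine ⟨max N₀ 1, fun N hN S W hW D hD hf => ?_⟩
      obtain ⟨hT1, hT2⟩ := hT N ((le_max_right _ _).trans hN)
      exact hN₀ N ((le_max_left _ _).trans hN) (T N) hT1 hT2 S W hW D hD hf
    tfae_have 3 → 1 := fun h => h _ hrange
    tfae_finish

end Pool.Agent.Results.MP_f326ae_lc.OneQueryTime
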