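import Pool.Agent.Q329.UX.Gen
import Pool.Agent.H257R3.SI.Final

/-!
# SetIntersection with unreliable information about absent elements: space `N ^ 2 / T`

Two families of `m` subsets of `{0, ..., N - 1}` are preprocessed (one family of `2 m` sets in two
halves). They are given by bits: for both families, all sets `i`, all elements `u` and all tags
`l < K`, the bit of the position `(b, i, u, l)` tells whether `u` is in the set `i` of the family `b`
with the tag `l` (the name of this occurrence). Only inputs in which each occurrence has one tag are
considered; the tag has no meaning.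

A data structure has `s` cells. Every cell contains an arbitrary nondecreasing real function of all
these bits and of their negations (unlimited preprocessing, unlimited word length); every function of
the families can be written in this form. The query `(i, j)` reads `t` numbers and reports a set which
is a nondecreasing function of them. Every number is the contents of a cell or, for free in the
space, a nondecreasing function of the bits and negated bits of one of the two families; which
numbers are read depends only on `(i, j)`. The data structure may be random.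

Faults: each negated bit (the information that `u` is not in the set `i` of the family `b` with the
tag `l`) is stuck at `0` while the memory is built, independently with probability `1 / D`. The other
bits are reliable.

Result: for all `C ≥ 1` there is `c > 0` such that for `log N ≤ c T` and `T ≤ c N` there is `m ≤ N` such
that for all `t ≤ C T` and `K ≥ D (log (2 N ^ 2) + 4)`: if, for the families of total size at most `N`
all of whose intersections have at most `T` elements, each common element of the sets of a query is
reported with probability at least `4 / 5` under faults, and each other element with probability at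
most `1 / 4` without faults, then `s ≥ c N ^ 2 / T`.

This is the conjectured space for the query time `O(T + op)`. So a structure with less space, if there
is one (the cells may be arbitrary functions, there is no monotonicity condition), must rely on all
the information about absent elements being correct, although faults are rare.

The proof: the instance is hidden at random tags; the tags which other occurrences would get are as
good as random faulty bits (`Pool/Agent/Y630`), so all negated bits that depend on the instance can be
replaced by `0`. For monotone data structures the bound `final` of the starting development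
`Pool/Agent/H257R3/SI` is used.
-/

set_option autoImplicit false

namespace Pool.Agent.Results.MP_f326ae_lc.UnreliableNegations

open Pool.Agent.Q329.UX Finset Pool.Agent.Y630.TF

/-- The positions of one family: the element `u` of the set `i` with the tag `l < K`. -/
abbrev Place (m N K : ℕ) : Type := (Fin m × Fin N) × Fin K

/-- The positions: `false` stands for the left family and `true` for the right family. -/
abbrev Position (m N K : ℕ) : Type := Bool × Place m N K

/-- The set number `i` of the family `b` which is given by the bits `w`. -/
def member {m N K : ℕ} (w : Position m N K → Bool) (b : Bool) (i : Fin m) : Finset (Fin N) :=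
  univ.filter fun u => ∃ l, w (b, (i, u), l) = true

/-- The total size of the sets is at most `N`, all intersections of a set of the left family with a
set of the right family have at most `T` elements, and each occurrence has at most one tag. -/
def Input {m N K : ℕ} (T : ℕ) (w : Position m N K → Bool) : Prop :=
  ∑ i, (member w false i).card + ∑ j, (member w true j).card ≤ N ∧
    (∀ i j, (member w false i ∩ member w true j).card ≤ T) ∧
    ∀ b i u l l', w (b, (i, u), l) = true → w (b, (i, u), l') = true → l = l'

/-- What a probe reads: a nondecreasing function of the literals of the family `b`, or a cell. -/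
inductive Source (m N K s : ℕ) : Type
  | free (b : Bool) (f : (Place m N K × Bool → Bool) → ℝ) (hf : Monotone f) : Source m N K s
  | stored (c : Fin s) : Source m N K s

/-- A data structure with `s` cells and `t` probes: every cell contains a nondecreasing real function
of the literals (the bits and the negated bits of all positions), and the query `(i, j)` reads `t`
numbers, whose sources depend only on `(i, j)`, and reports a set which is a nondecreasing function
of them. -/
structure DataStructure (m N K s t : ℕ) : Type where
  store : Fin s → (Position m N K × Bool → Bool) → ℝ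
  store_mono : ∀ c, Monotone (store c)
  probe : Fin m → Fin m → Fin t → Source m N K s
  report : Fin m → Fin m → (Fin t → ℝ) → Finset (Fin N)
  report_mono : ∀ i j, Monotone (report i j)

/-- The number which is read by a probe, if the literals have the values `y`. -/
def DataStructure.read {m N K s t : ℕ} (C : DataStructure m N K s t)
    (y : Position m N K × Bool → Bool) : Source m N K s → ℝ
  | Source.free b f _ => f fun q => y ((b, q.1), q.2)
  | Source.stored c => C.store c y

/-- The element `u` is reported by the query `(i, j)`, if the literals have the values `y`. -/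
def DataStructure.Reports {m N K s t : ℕ} (C : DataStructure m N K s t) (i j : Fin m) (u : Fin N)
    (y : Position m N K × Bool → Bool) : Prop :=
  u ∈ C.report i j fun l => C.read y (C.probe i j l)

/-- The random data structure `C ρ`, `ρ` uniform, solves SetIntersection for the inputs of total size
at most `N` and with intersections of at most `T` elements, in the presence of faults with
probability `1 / D` (`faultyP`, `accP`: `Pool/Agent/Q329/UX/Gen.lean`). -/
def Tolerates {m N K s t : ℕ} {R : Type} (C : R → DataStructure m N K s t) (D T : ℕ) : Prop :=
  ∀ w, Input T w → ∀ (i j : Fin m) (u : Fin N),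
    (u ∈ member w false i ∩ member w true j →
      4 / 5 ≤ faultyP (fun ρ => (C ρ).Reports i j u) D w) ∧
    (u ∉ member w false i ∩ member w true j →
      accP (fun ρ => (C ρ).Reports i j u) w ≤ 1 / 4)

theorem rlit_le {E X G : Type} [Fintype E] [DecidableEq E] [Fintype X] [DecidableEq X]
    [Fintype G] [DecidableEq G] [AddCommGroup G] (slot : X × G ↪ E) (base : E → Bool) (τ : X → G)
    {y y' : X → Bool} (h : y ≤ y') : rlit slot base τ y ≤ rlit slot base τ y' := by
  classical
  rintro ⟨e, b⟩
  cases b
  · exact le_rfl
  · unfold rlit
    rw [if_pos rfl, if_pos rfl]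
    by_cases h1 : host slot base τ y e = true
    · have h2 : host slot base τ y' e = true := by
        rw [host_true] at h1 ⊢
        rcases h1 with h1 | ⟨x, hx, hs⟩
        · exact Or.inl h1
        · refine Or.inr ⟨x, ?_, hs⟩
          have h3 := h x
          rw [hx] at h3
          exact top_le_iff.mp h3
      rw [h1, h2]
    · rw [Bool.not_eq_true] at h1
      rw [h1]
      exact Bool.false_le _

/-- For all `C₀ ≥ 1` there is `c > 0` such that for `log N ≤ c T` and `T ≤ c N` there is `m ≤ N` with the
following property. Let `t ≤ C₀ T`, `D ≥ 1` and `K ≥ D (log (2 N ^ 2) + 4)`. A finite nonempty family of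
data structures with `s` cells and `t` probes which solves SetIntersection for the inputs of total
size at most `N` and with intersections of at most `T` elements in the presence of faults with
probability `1 / D` has `s ≥ c N ^ 2 / T`. -/
theorem result (C₀ : ℝ) (hC₀ : 1 ≤ C₀) : ∃ c : ℝ, 0 < c ∧
    ∀ N T : ℕ, 1 ≤ T → Real.log N ≤ c * T → (T : ℝ) ≤ c * N →
      ∃ m : ℕ, m ≤ N ∧ ∀ s t D K : ℕ, (t : ℝ) ≤ C₀ * T → 1 ≤ D →
        D * (Real.log (2 * N ^ 2) + 4) ≤ K →
        ∀ (R : Type) [Finite R] [Nonempty R] (C : R → DataStructure m N K s t),
          Tolerates C D T → c * ((N : ℝ) ^ 2 / T) ≤ s := by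
  classical
  obtain ⟨c, hc, hmain⟩ := Pool.Agent.H257R3.SI.final C₀ (1 / 4) hC₀ (by norm_num) (by norm_num)
  refine ⟨c, hc, fun N T hT hlogN hTN => ?_⟩
  obtain ⟨m, hm, hlow⟩ := hmain N T hT hlogN hTN
  refine ⟨m, hm, fun s t D K ht hD hK R _ _ C hC => ?_⟩
  let _ : Fintype R := Fintype.ofFinite R
  have hDR : (1 : ℝ) ≤ D := by exact_mod_cast hD
  have hN1 : 1 ≤ N := by
    rcases Nat.eq_zero_or_pos N with h | h
    · have h1 : (1 : ℝ) ≤ T := by exact_mod_cast hT
      rw [h, Nat.cast_zero, mul_zero] at hTN
      linarith
    · exact h
  have hNR : (1 : ℝ) ≤ N := by exact_mod_cast hN1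
  have hlog : 0 ≤ Real.log (2 * N ^ 2) := Real.log_nonneg (by nlinarith)
  have hK0 : 0 < K := by
    have h1 : (0 : ℝ) < K := lt_of_lt_of_le (by positivity) hK
    exact_mod_cast h1
  have : NeZero K := ⟨hK0.ne'⟩
  have hbad : (Fintype.card (Bool × Fin m × Fin N) : ℝ) *
      (1 - 1 / (D : ℝ)) ^ Fintype.card (Fin K) ≤ 1 / 40 := by
    rw [Fintype.card_prod, Fintype.card_prod, Fintype.card_bool, Fintype.card_fin,
      Fintype.card_fin, Fintype.card_fin]
    push_cast
    have h2 := Pool.Agent.Y630.TG.places_bad (D := D) (K := K) (n := 2 * (N : ℝ) ^ 2) (by omega)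
      (by positivity) hK
    have h3 : (0 : ℝ) ≤ (1 - 1 / (D : ℝ)) ^ K := by
      apply pow_nonneg
      rw [sub_nonneg, div_le_one (by linarith)]
      exact hDR
    have h4 : (2 : ℝ) * ((m : ℝ) * N) ≤ 2 * (N : ℝ) ^ 2 := by
      have : (m : ℝ) ≤ N := by exact_mod_cast hm
      nlinarith
    exact (mul_le_mul_of_nonneg_right h4 h3).trans h2
  let slot : (Bool × Fin m × Fin N) × Fin K ↪ Position m N K :=
    (Equiv.prodAssoc Bool (Fin m × Fin N) (Fin K)).toEmbedding
  let enc : Pool.Agent.H257R3.SI.Fam m N → Bool × Fin m × Fin N → Bool :=
    fun A q => decide (q.2.2 ∈ (if q.1 = true then A.2 else A.1) q.2.1)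
  have henc : Monotone enc := by
    intro A A' hA q
    show decide _ ≤ decide _
    by_cases h1 : q.2.2 ∈ (if q.1 = true then A.2 else A.1) q.2.1
    · have h2 : q.2.2 ∈ (if q.1 = true then A'.2 else A'.1) q.2.1 := by
        split_ifs at h1 ⊢ with hq
        · exact hA.2 _ h1
        · exact hA.1 _ h1
      rw [decide_eq_true h1, decide_eq_true h2]
    · rw [decide_eq_false h1]
      exact Bool.false_le _
  -- the hidden words
  have hword : ∀ (y : Bool × Fin m × Fin N → Bool) (τ : Bool × Fin m × Fin N → Fin K) b x l,
      host slot (fun _ => false) τ y (b, x, l) = true ↔ y (b, x) = true ∧ τ (b, x) = l := by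
    intro y τ b x l
    rw [host_true]
    constructor
    · rintro (h | ⟨q, h1, h2⟩)
      · exact absurd h (by simp)
      · have h3 : (q, τ q) = ((b, x), l) :=
          (Equiv.prodAssoc Bool (Fin m × Fin N) (Fin K)).injective h2
        have h4 : q = (b, x) := congrArg Prod.fst h3
        have h5 : τ q = l := congrArg Prod.snd h3
        rw [h4] at h1 h5
        exact ⟨h1, h5⟩
    · rintro ⟨h1, h2⟩
      exact Or.inr ⟨(b, x), h1, by rw [h2]; rfl⟩
  have hmem : ∀ (A : Pool.Agent.H257R3.SI.Fam m N) (τ : Bool × Fin m × Fin N → Fin K) (b : Bool)
      (i : Fin m), member (host slot (fun _ => false) τ (enc A)) b i =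
        (if b = true then A.2 else A.1) i := by
    intro A τ b i
    ext u
    unfold member
    rw [Finset.mem_filter]
    constructor
    · rintro ⟨-, l, hl⟩
      rw [hword] at hl
      exact of_decide_eq_true hl.1
    · intro hu
      refine ⟨mem_univ _, τ (b, i, u), ?_⟩
      rw [hword]
      exact ⟨decide_eq_true hu, rfl⟩
  -- the monotone data structures
  let conv : (ω : R × (Bool × Fin m × Fin N → Fin K)) → Source m N K s →
      Pool.Agent.H257R3.SI.Source m N s := fun ω S => match S with
    | Source.free false f hf => Pool.Agent.H257R3.SI.Source.left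
        (fun A => f fun q => rlit slot (fun _ => false) ω.2 (enc (A, fun _ => ∅))
          ((false, q.1), q.2))
        (fun A A' h => hf fun q => rlit_le slot _ ω.2
          (henc (show ((A, fun _ => ∅) : Pool.Agent.H257R3.SI.Fam m N) ≤ (A', fun _ => ∅) from
            ⟨h, le_rfl⟩)) _)
    | Source.free true f hf => Pool.Agent.H257R3.SI.Source.right
        (fun A => f fun q => rlit slot (fun _ => false) ω.2 (enc (fun _ => ∅, A))
          ((true, q.1), q.2))
        (fun A A' h => hf fun q => rlit_le slot _ ω.2
          (henc (show ((fun _ => ∅, A) : Pool.Agent.H257R3.SI.Fam m N) ≤ (fun _ => ∅, A') from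
            ⟨le_rfl, h⟩)) _)
    | Source.stored c => Pool.Agent.H257R3.SI.Source.cell c
  let DS : R × (Bool × Fin m × Fin N → Fin K) → Pool.Agent.H257R3.SI.DS m N s t := fun ω =>
    { store := fun c A => (C ω.1).store c (rlit slot (fun _ => false) ω.2 (enc A))
      store_mono := fun c A A' h => (C ω.1).store_mono c (rlit_le slot _ _ (henc h))
      probe := fun i j l => conv ω ((C ω.1).probe i j l)
      out := (C ω.1).report
      out_mono := (C ω.1).report_mono }
  have hlocal : ∀ (A A' : Pool.Agent.H257R3.SI.Fam m N) (τ : Bool × Fin m × Fin N → Fin K)
      (b : Bool), (if b = true then A.2 else A.1) = (if b = true then A'.2 else A'.1) →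
      ∀ q : Place m N K × Bool, rlit slot (fun _ => false) τ (enc A) ((b, q.1), q.2) =
        rlit slot (fun _ => false) τ (enc A') ((b, q.1), q.2) := by
    rintro A A' τ b hb ⟨⟨x, l⟩, u⟩
    cases u
    · rfl
    · unfold rlit
      rw [if_pos rfl, if_pos rfl, Bool.eq_iff_iff, hword, hword]
      show decide _ = true ∧ _ ↔ decide _ = true ∧ _
      rw [decide_eq_true_iff, decide_eq_true_iff]
      show x.2 ∈ (if b = true then A.2 else A.1) x.1 ∧ _ ↔
        x.2 ∈ (if b = true then A'.2 else A'.1) x.1 ∧ _
      rw [hb]
  have hread : ∀ ω A (S : Source m N K s), (DS ω).read A (conv ω S) =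
      (C ω.1).read (rlit slot (fun _ => false) ω.2 (enc A)) S := by
    intro ω A S
    match S with
    | Source.free false f hf =>
      show f _ = f _
      exact congrArg f (funext fun q => hlocal (A.1, fun _ => ∅) A ω.2 false rfl q)
    | Source.free true f hf =>
      show f _ = f _
      exact congrArg f (funext fun q => hlocal (fun _ => ∅, A.2) A ω.2 true rfl q)
    | Source.stored c => rfl
  have hans : ∀ ω A i j u, u ∈ (DS ω).answer i j A ↔
      (C ω.1).Reports i j u (rlit slot (fun _ => false) ω.2 (enc A)) := by
    intro ω A i j u
    show u ∈ (C ω.1).report i j (fun l => (DS ω).read A (conv ω ((C ω.1).probe i j l))) ↔ _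
    have h1 : (fun l => (DS ω).read A (conv ω ((C ω.1).probe i j l))) =
        fun l => (C ω.1).read (rlit slot (fun _ => false) ω.2 (enc A)) ((C ω.1).probe i j l) :=
      funext fun l => hread ω A _
    rw [h1]
    rfl
  have hmono : ∀ (i j : Fin m) (u : Fin N) (ρ : R) (v v' : Position m N K × Bool → Bool),
      v ≤ v' → (C ρ).Reports i j u v → (C ρ).Reports i j u v' := by
    intro i j u ρ v v' hv hu
    refine (C ρ).report_mono i j (fun l => ?_) hu
    cases (C ρ).probe i j l with
    | free b f hf => exact hf fun q => hv _
    | stored c => exact (C ρ).store_mono c hv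
  have hΩ0 : (0 : ℝ) < Fintype.card (R × (Bool × Fin m × Fin N → Fin K)) := by
    have : Nonempty (R × (Bool × Fin m × Fin N → Fin K)) := inferInstance
    exact_mod_cast Fintype.card_pos
  refine hlow s t ht (R × (Bool × Fin m × Fin N → Fin K))
    (fun _ => 1 / (Fintype.card (R × (Bool × Fin m × Fin N → Fin K)) : ℝ)) DS
    ⟨fun _ => by positivity, ?_, ?_⟩
  · rw [Finset.sum_const, Finset.card_univ, nsmul_eq_mul, mul_one_div_cancel hΩ0.ne']
  · intro A hA1 hA2 i j u
    have hin : ∀ τ, Input T (host slot (fun _ => false) τ (enc A)) := by
      intro τ
      refine ⟨?_, fun i' j' => ?_, fun b i' u' l l' h1 h2 => ?_⟩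
      · simp only [hmem]
        exact hA1
      · rw [hmem, hmem]
        exact hA2 i' j'
      · rw [hword] at h1 h2
        rw [← h1.2, ← h2.2]
    have hint : ∀ τ, (u ∈ member (host slot (fun _ => false) τ (enc A)) false i ∩
        member (host slot (fun _ => false) τ (enc A)) true j ↔ u ∈ A.1 i ∩ A.2 j) := by
      intro τ
      rw [hmem, hmem]
      rfl
    rw [Finset.sum_const, nsmul_eq_mul, mul_one_div, le_div_iff₀ hΩ0]
    by_cases hz : u ∈ A.1 i ∩ A.2 j
    · have h1 := hide_yes (fun ρ => (C ρ).Reports i j u) (hmono i j u) (by omega : 0 < D) slot
        (fun _ => false) hbad (enc A) (fun τ => (hC _ (hin τ) i j u).1 ((hint τ).mpr hz))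
      rw [Nat.card_eq_fintype_card (α := R × (Bool × Fin m × Fin N → Fin K)),
        Nat.card_eq_fintype_card, Fintype.card_subtype] at h1
      refine le_trans (le_of_eq (by norm_num)) (h1.trans (le_of_eq ?_))
      congr 2
      ext ω
      rw [Finset.mem_filter, Finset.mem_filter]
      refine and_congr_right fun _ => ?_
      rw [hans]
      simp only [hz, iff_true]
    · have h1 := hide_no (fun ρ => (C ρ).Reports i j u) (hmono i j u) slot
        (fun _ => false) (enc A) (fun τ => (hC _ (hin τ) i j u).2 (fun h => hz ((hint τ).mp h)))
      rw [Nat.card_eq_fintype_card (α := R × (Bool × Fin m × Fin N → Fin K)),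
        Nat.card_eq_fintype_card, Fintype.card_subtype] at h1
      have h2 : (univ.filter fun ω => (u ∈ (DS ω).answer i j A ↔ u ∈ A.1 i ∩ A.2 j)) =
          univ.filter fun ω : R × (Bool × Fin m × Fin N → Fin K) => ¬ (C ω.1).Reports i j u
            (rlit slot (fun _ => false) ω.2 (enc A)) := by
        ext ω
        rw [Finset.mem_filter, Finset.mem_filter]
        refine and_congr_right fun _ => ?_
        rw [hans]
        simp only [hz, iff_false]
      have h3 := Finset.card_filter_add_card_filter_not
        (s := (univ : Finset (R × (Bool × Fin m × Fin N → Fin K))))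
        (p := fun ω => (C ω.1).Reports i j u (rlit slot (fun _ => false) ω.2 (enc A)))
      rw [Finset.card_univ] at h3
      have h4 : ((univ.filter fun ω : R × (Bool × Fin m × Fin N → Fin K) =>
          (C ω.1).Reports i j u (rlit slot (fun _ => false) ω.2 (enc A))).card : ℝ) +
          ((univ.filter fun ω : R × (Bool × Fin m × Fin N → Fin K) => ¬ (C ω.1).Reports i j u
            (rlit slot (fun _ => false) ω.2 (enc A))).card : ℝ) =
          Fintype.card (R × (Bool × Fin m × Fin N → Fin K)) := by
        exact_mod_cast h3
      have h5 : ((univ.filter fun ω => (u ∈ (DS ω).answer i j A ↔ u ∈ A.1 i ∩ A.2 j)).card : ℝ) =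
          ((univ.filter fun ω : R × (Bool × Fin m × Fin N → Fin K) => ¬ (C ω.1).Reports i j u
            (rlit slot (fun _ => false) ω.2 (enc A))).card : ℝ) := by rw [h2]
      have h6 : (1 / 2 + 1 / 4 : ℝ) * Fintype.card (R × (Bool × Fin m × Fin N → Fin K)) ≤
          ((univ.filter fun ω => (u ∈ (DS ω).answer i j A ↔ u ∈ A.1 i ∩ A.2 j)).card : ℝ) := by
        rw [h5]
        linarith
      refine h6.trans (le_of_eq ?_)
      congr 2

end Pool.Agent.Results.MP_f326ae_lc.UnreliableNegations
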